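import Pool.Agent.H174.GM.Stmts2

set_option autoImplicit false

/-! Project GM (MP_b6786a_co): recursion of the Gog residues (written by helper94). -/

namespace Pool.Agent.H94.GM174

open Finset
open Pool.Agent.H174.GM

/-- the residue as an additive homomorphism -/
noncomputable def resHom (k : ℕ) (h : S_EH3) : E k →+ ℚ where
  toFun := res
  map_zero' := rfl
  map_add' := (h k).1

theorem aa_shift {R : Type*} [CommRing R] {k : ℕ} (a : Fin k → ℕ) (ha : ∀ i, 1 ≤ a i) (X : Fin k → R) :
    aa a X = (∏ i, X i) * aa (fun i => a i - 1) X := by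
  unfold aa
  rw [Finset.mul_sum]
  apply Finset.sum_congr rfl
  intro σ _
  have h1 : ff a (X ∘ σ) = (∏ i, X i) * ff (fun i => a i - 1) (X ∘ σ) := by
    unfold ff
    rw [← mul_assoc]
    congr 1
    rw [← Equiv.prod_comp σ X, ← Finset.prod_mul_distrib]
    apply Finset.prod_congr rfl
    intro i _
    simp only [Function.comp]
    rw [← pow_succ', Nat.sub_add_cancel (ha i)]
  rw [h1, mul_smul_comm]

/-- all terms with a large exponent vanish -/
theorem res_zero (h2 : S_REG) (h6 : S_EH3) {k N : ℕ} {a : Fin k → ℕ} {i : Fin k} {h : E k} (hN : N ≤ a i)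
    (hh : ∀ l, Ge l 0 h) :
    res (psi (xx (k := k)) * aa a (xx (k := k)) * h / (dd (xx (k := k)) * (∏ i, uu (xx i)) ^ N)) = 0 := by
  have h1 : psi (xx (k := k)) * aa a (xx (k := k)) * h / (dd (xx (k := k)) * (∏ i, uu (xx i)) ^ N) =
      ∑ σ : Equiv.Perm (Fin k), (Equiv.Perm.sign σ : ℤ) •
        (psi (xx (k := k)) * ff a (xx ∘ σ) * h / (dd (xx (k := k)) * (∏ i, uu (xx i)) ^ N)) := by
    unfold aa
    rw [Finset.mul_sum, Finset.sum_mul, Finset.sum_div]
    apply Finset.sum_congr rfl
    intro σ _
    simp only [zsmul_eq_mul]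
    ring
  rw [h1]
  change resHom k h6 _ = 0
  rw [map_sum]
  apply Finset.sum_eq_zero
  intro σ _
  rw [map_zsmul]
  have h3 : resHom k h6 (psi (xx (k := k)) * ff a (xx ∘ σ) * h / (dd (xx (k := k)) * (∏ i, uu (xx i)) ^ N)) = 0 :=
    h2 k N a σ i h hN hh
  rw [h3, smul_zero]

theorem ge_one (h7 : S_XF) {k : ℕ} (j : Fin k) : Ge j 0 (1 : E k) := by
  have h := ((h7 k j).2.2.2.2.2.1 1).1
  rwa [map_one] at h

theorem ge_prod (h4 : S_EH1) (h7 : S_XF) {k : ℕ} {ι : Type*} (j : Fin k) (s : Finset ι) (f : ι → E k)
    (hf : ∀ i ∈ s, Ge j 0 (f i)) : Ge j 0 (∏ i ∈ s, f i) := by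
  classical
  induction s using Finset.induction_on with
  | empty =>
    rw [Finset.prod_empty]
    exact ge_one h7 j
  | insert i s hi ih =>
    rw [Finset.prod_insert hi]
    have h := (h4 k j 0 0 (f i) (∏ i ∈ s, f i)).1 (hf i (Finset.mem_insert_self _ _))
      (ih (fun i' hi' => hf i' (Finset.mem_insert_of_mem hi')))
    rwa [add_zero] at h

theorem ge_inv (h7 : S_XF) {k : ℕ} (j i : Fin k) : Ge j 0 ((1 - xx i : E k)⁻¹) := by
  by_cases hij : i = j
  · subst hij
    exact ((h7 k i).2.2.2.2.1 i).2.2
  · obtain ⟨_, _, _, hx, _, hc, ha, hn⟩ := h7 k j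
    have e1 : Free j (1 : E k) := by
      have := hc 1
      rwa [map_one] at this
    have e2 : Free j (1 - xx i : E k) := by
      rw [sub_eq_add_neg]
      exact (ha _ _ e1 (hn _ (hx i hij)).1).1
    exact ((hn _ e2).2).1

theorem lead_ne {k : ℕ} {f : E k} {γ : Ex k} (h : Lead f γ) : f ≠ 0 := by
  intro h0
  apply h.1
  rw [h0]
  rfl

theorem grec (h1 : S_R3) (h2 : S_REG) (h3 : S_R2) (h4 : S_EH1) (_h5 : S_EH2) (h6 : S_EH3) (h7 : S_XF) :
    Pool.Agent.H174.GM.S_GREC := by
  intro k m a hk ha ha1
  have hlast : k - 1 < k := by omega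
  obtain ⟨z, hz⟩ : ∃ z : Fin k, z.1 = k - 1 := ⟨⟨k - 1, hlast⟩, rfl⟩
  -- shorthands
  obtain ⟨D, hD⟩ : ∃ D : E k, D = dd (xx (k := k)) := ⟨_, rfl⟩
  obtain ⟨U, hU⟩ : ∃ U : E k, U = ∏ i, uu (xx (k := k) i) := ⟨_, rfl⟩
  obtain ⟨PX, hPX⟩ : ∃ PX : E k, PX = ∏ i, xx (k := k) i := ⟨_, rfl⟩
  obtain ⟨P1, hP1⟩ : ∃ P1 : E k, P1 = ∏ i, (1 - xx (k := k) i) := ⟨_, rfl⟩
  have hUP : U = PX * P1 := by
    rw [hU, hPX, hP1, ← Finset.prod_mul_distrib]
    rfl
  have hPX0 : PX ≠ 0 := by
    rw [hPX, Finset.prod_ne_zero_iff]
    intro i _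
    exact lead_ne (h7 k i).1
  have hP10 : P1 ≠ 0 := by
    rw [hP1, Finset.prod_ne_zero_iff]
    intro i _
    exact lead_ne ((h7 k i).2.2.2.2.1 i).1
  have hP1inv : ∀ l, Ge l 0 P1⁻¹ := by
    intro l
    rw [hP1, ← Finset.prod_inv_distrib]
    exact ge_prod h4 h7 l _ _ (fun i _ => ge_inv h7 l i)
  have hgz : ∀ (n : ℕ) (b : Fin k → ℕ) (i : Fin k), n + k + 1 ≤ b i → gres k n b = 0 := by
    intro n b i hb
    have h := res_zero h2 h6 (a := b) (i := i) (h := 1) hb (fun l => ge_one h7 l)
    rw [mul_one] at h
    exact h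
  rcases Nat.lt_or_ge (m + k + 1) (a z) with hbig | hsmall
  · rw [hgz (m + 1) a z (by omega)]
    symm
    apply Finset.sum_eq_zero
    intro b hb
    exfalso
    rw [Finset.mem_filter, Fintype.mem_piFinset] at hb
    have e1 := hb.2.1.1 z
    have e2 := Finset.mem_range.1 (hb.1 z)
    omega
  · -- the interpolating sequence
    obtain ⟨kk, hkk⟩ : ∃ kk : Fin (k + 1) → ℕ,
        kk = Fin.snoc (α := fun _ => ℕ) (fun i => a i - 1) (m + k + 1) := ⟨_, rfl⟩
    have hkc : ∀ i : Fin k, kk i.castSucc = a i - 1 := by
      intro i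
      rw [hkk, Fin.snoc_castSucc]
    have hkl : kk (Fin.last k) = m + k + 1 := by
      rw [hkk, Fin.snoc_last]
    have haz : ∀ i, a i ≤ a z := by
      intro i
      apply ha.monotone
      change i.1 ≤ z.1
      have := i.2
      omega
    have hmono : StrictMono kk := by
      intro i j hij
      induction j using Fin.lastCases with
      | last =>
        induction i using Fin.lastCases with
        | last => exact absurd hij (lt_irrefl _)
        | cast i =>
          rw [hkc, hkl]
          have := haz i
          omega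
      | cast j =>
        induction i using Fin.lastCases with
        | last =>
          exfalso
          have h := Fin.lt_def.1 hij
          simp only [Fin.val_last, Fin.val_castSucc] at h
          have := j.2
          omega
        | cast i =>
          rw [hkc, hkc]
          have h := ha (Fin.castSucc_lt_castSucc_iff.1 hij)
          have e1 := ha1 i
          omega
    have hR := h1 (E k) k (xx (k := k)) kk hmono
    rw [Fin.sum_univ_castSucc] at hR
    have hcl : cut (Fin.last k) kk = fun i => a i - 1 := by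
      funext j
      unfold cut
      rw [if_pos (by rw [Fin.val_last]; exact j.2), hkc]
    rw [hcl, Fin.val_last, Nat.sub_self, pow_zero, one_smul, ← hP1] at hR
    have hres : gres k (m + 1) a = ∑ l ∈ inter kk, gres k m l := by
      have e1 : psi (xx (k := k)) * aa a (xx (k := k)) / (D * U ^ (m + 1 + k + 1)) =
          ∑ l ∈ inter kk, psi (xx (k := k)) * aa l (xx (k := k)) / (D * U ^ (m + k + 1)) -
          ∑ i : Fin k, ((-1 : ℤ) ^ (k - (i.castSucc : Fin (k + 1)).1)) •
            (psi (xx (k := k)) * aa (cut i.castSucc kk) (xx (k := k)) * P1⁻¹ / (D * U ^ (m + k + 1))) := by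
        have g1 : D * U ^ (m + 1 + k + 1) = PX * (D * U ^ (m + k + 1) * P1) := by
          rw [show m + 1 + k + 1 = (m + k + 1) + 1 by ring, pow_succ]
          nth_rewrite 2 [hUP]
          ring
        have g2 : psi (xx (k := k)) * aa a (xx (k := k)) =
            PX * (psi (xx (k := k)) * aa (fun i => a i - 1) (xx (k := k))) := by
          rw [aa_shift a ha1, ← hPX]
          ring
        rw [g1, g2, mul_div_mul_left _ _ hPX0]
        have g3 : aa (fun i => a i - 1) (xx (k := k)) = P1 * ∑ l ∈ inter kk, aa l (xx (k := k)) -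
            ∑ i : Fin k, ((-1 : ℤ) ^ (k - (i.castSucc : Fin (k + 1)).1)) •
              aa (cut i.castSucc kk) (xx (k := k)) := by
          rw [hR]
          ring
        rw [g3, mul_sub, sub_div]
        congr 1
        · rw [← Finset.sum_div, ← Finset.mul_sum]
          rw [show psi (xx (k := k)) * (P1 * ∑ l ∈ inter kk, aa l (xx (k := k))) =
            (psi (xx (k := k)) * ∑ l ∈ inter kk, aa l (xx (k := k))) * P1 by ring]
          exact mul_div_mul_right _ _ hP10
        · rw [Finset.mul_sum, Finset.sum_div]
          apply Finset.sum_congr rfl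
          intro i _
          simp only [zsmul_eq_mul, div_eq_mul_inv, mul_inv]
          ring
      have e2 : gres k (m + 1) a = resHom k h6 (psi (xx (k := k)) * aa a (xx (k := k)) /
          (D * U ^ (m + 1 + k + 1))) := by
        rw [hD, hU]
        rfl
      rw [e2, e1, map_sub, map_sum, map_sum]
      have e3 : ∑ i : Fin k, resHom k h6 (((-1 : ℤ) ^ (k - (i.castSucc : Fin (k + 1)).1)) •
            (psi (xx (k := k)) * aa (cut i.castSucc kk) (xx (k := k)) * P1⁻¹ / (D * U ^ (m + k + 1)))) = 0 := by
        apply Finset.sum_eq_zero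
        intro i _
        rw [map_zsmul]
        have g : resHom k h6 (psi (xx (k := k)) * aa (cut i.castSucc kk) (xx (k := k)) * P1⁻¹ /
            (D * U ^ (m + k + 1))) = 0 := by
          rw [hD, hU]
          refine res_zero h2 h6 (i := z) ?_ hP1inv
          unfold cut
          have hzi : ¬ z.1 < (i.castSucc : Fin (k + 1)).1 := by
            rw [Fin.val_castSucc]
            have := i.2
            omega
          rw [if_neg hzi]
          have hzs : z.succ = Fin.last k := by
            apply Fin.ext
            rw [Fin.val_succ, Fin.val_last]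
            omega
          rw [hzs, hkl]
          omega
        rw [g, smul_zero]
      rw [e3, sub_zero]
      apply Finset.sum_congr rfl
      intro l _
      rw [hD, hU]
      rfl
    rw [hres]
    symm
    apply Finset.sum_subset
    · intro b hb
      rw [Finset.mem_filter, Fintype.mem_piFinset] at hb
      obtain ⟨b1, ⟨b2, b3⟩, b4, b5⟩ := hb
      unfold inter
      rw [Finset.mem_filter, Fintype.mem_piFinset]
      refine ⟨fun j => ?_, b4⟩
      rw [Finset.mem_Icc]
      constructor
      · rw [hkc]
        have := b2 j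
        omega
      · by_cases hj : j.1 + 1 < k
        · have hs : j.succ = (⟨j.1 + 1, hj⟩ : Fin k).castSucc := by
            apply Fin.ext
            rfl
          rw [hs, hkc]
          have := b3 j ⟨j.1 + 1, hj⟩ rfl
          omega
        · have hs : j.succ = Fin.last k := by
            apply Fin.ext
            rw [Fin.val_succ, Fin.val_last]
            have := j.2
            omega
          rw [hs, hkl]
          have := Finset.mem_range.1 (b1 j)
          omega
    · intro l hl hnot
      unfold inter at hl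
      rw [Finset.mem_filter, Fintype.mem_piFinset] at hl
      obtain ⟨l1, l2⟩ := hl
      have hlm : StrictMono l := fun i j hij => l2 i j hij
      by_cases c1 : ∃ i, m + k + 1 ≤ l i
      · obtain ⟨i, hi⟩ := c1
        exact hgz m l i hi
      · push Not at c1
        by_cases c2 : ∃ i, l i = 0
        · obtain ⟨i, hi⟩ := c2
          refine h3 k hk m l hlm ?_
          have : l ⟨0, hk⟩ ≤ l i := hlm.monotone (Nat.zero_le _)
          omega
        · push Not at c2
          exfalso
          apply hnot
          rw [Finset.mem_filter, Fintype.mem_piFinset]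
          refine ⟨fun i => Finset.mem_range.2 (by have := c1 i; omega), ⟨?_, ?_⟩, l2, ?_⟩
          · intro i
            have := (Finset.mem_Icc.1 (l1 i)).1
            rw [hkc] at this
            omega
          · intro i j hij
            have h := (Finset.mem_Icc.1 (l1 i)).2
            have hs : i.succ = j.castSucc := by
              apply Fin.ext
              rw [Fin.val_succ, Fin.val_castSucc, hij]
            rw [hs, hkc] at h
            have := ha1 j
            omega
          · intro i
            have := c2 i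
            omega

end Pool.Agent.H94.GM174
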